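import Mathlib

set_option autoImplicit false

namespace Pool.Agent.Results.MP_f7d7fe_co.AllN

/-- the translates `v i + L i` of finite-index subgroups partition `ℤ^d` -/
def IsTiling {d n : ℕ} (L : Fin n → AddSubgroup (Fin d → ℤ)) (v : Fin n → Fin d → ℤ) : Prop :=
  (∀ i, (L i).FiniteIndex) ∧ ∀ x, ∃! i, x - v i ∈ L i

/-- the index set is partitioned into `k ≥ 2` nonempty blocks (the fibres of `blk`), one of size
at least two, the union over each block being one lattice translate -/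
def Splits {d n : ℕ} (L : Fin n → AddSubgroup (Fin d → ℤ)) (v : Fin n → Fin d → ℤ) : Prop :=
  ∃ (k : ℕ) (blk : Fin n → Fin k), 2 ≤ k ∧ Function.Surjective blk ∧
    (∃ i j, i ≠ j ∧ blk i = blk j) ∧
    ∀ b, ∃ (M : AddSubgroup (Fin d → ℤ)) (w : Fin d → ℤ), M.FiniteIndex ∧
      ∀ x, (∃ i, blk i = b ∧ x - v i ∈ L i) ↔ x - w ∈ M

structure Til {G ι : Type} [AddCommGroup G] (c : G → ι) : Prop where
  surj : Function.Surjective c
  cl : ∀ x y z, c y = c x → c z = c x → c (x - y + z) = c x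
  prim : ∀ U : Set G, (∀ x ∈ U, ∀ y ∈ U, ∀ z ∈ U, x - y + z ∈ U) →
    (∀ x y, c x = c y → x ∈ U → y ∈ U) → (∀ x ∈ U, ∀ y ∈ U, c x = c y) ∨ ∀ x, x ∈ U

structure Pair {G ι : Type} [AddCommGroup G] (c : G → ι) (a a' b b' : G) : Prop where
  two : ∀ x : G, x + x = 0
  ha : ∀ x, c x = c a ↔ x = a ∨ x = a'
  hb : ∀ x, c x = c b ↔ x = b ∨ x = b'
  na : a ≠ a'
  nb : b ≠ b'
  nab : c a ≠ c b
  dir : a - a' + b ≠ b'

lemma Til.comap {G H ι : Type} [AddCommGroup G] [AddCommGroup H] {c : G → ι} (h : Til c)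
    (φ : H →+ G) (hφ : Function.Surjective φ) : Til (c ∘ φ) where
  surj := h.surj.comp hφ
  cl x y z h1 h2 := by simpa using h.cl _ _ _ h1 h2
  prim U h1 h2 := by
    rcases h.prim (φ '' U) (by
        rintro _ ⟨x, hx, rfl⟩ _ ⟨y, hy, rfl⟩ _ ⟨z, hz, rfl⟩
        exact ⟨_, h1 x hx y hy z hz, by simp⟩) (by
        rintro _ g e ⟨x, hx, rfl⟩
        obtain ⟨y, rfl⟩ := hφ g
        exact ⟨y, h2 x y e hx, rfl⟩) with h3 | h3
    · exact Or.inl fun x hx y hy => h3 _ ⟨x, hx, rfl⟩ _ ⟨y, hy, rfl⟩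
    · refine Or.inr fun x => ?_
      obtain ⟨y, hy, e⟩ := h3 (φ x)
      exact h2 y x (congrArg c e) hy

lemma final {G ι : Type} [AddCommGroup G] [Finite G] [Fintype ι] {c : G → ι} (h : Til c) (n : ℕ)
    (hn : Fintype.card ι = n) : ∃ (d : ℕ) (L : Fin n → AddSubgroup (Fin d → ℤ))
      (v : Fin n → Fin d → ℤ), 1 ≤ d ∧ IsTiling L v ∧ ¬ Splits L v := by
  obtain ⟨m, f, hf⟩ := Module.Finite.exists_fin' ℤ G
  let φ : (Fin (m + 1) → ℤ) →+ G :=
    f.toAddMonoidHom.comp (LinearMap.funLeft ℤ ℤ Fin.succ).toAddMonoidHom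
  have hφ : Function.Surjective φ :=
    hf.comp (LinearMap.funLeft_surjective_of_injective ℤ ℤ _ (Fin.succ_injective m))
  have T := h.comap φ hφ
  let e : ι ≃ Fin n := Fintype.equivFinOfCardEq hn
  set c' := c ∘ φ with hc'
  choose v hv using fun i : Fin n => T.surj (e.symm i)
  let L : Fin n → AddSubgroup (Fin (m + 1) → ℤ) := fun i =>
    { carrier := {g | c' (g + v i) = c' (v i)}
      zero_mem' := by simp
      add_mem' := fun {g g'} h1 h2 => by
        have := T.cl (g + v i) (v i) (g' + v i) h1.symm (h2.trans h1.symm)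
        simp only [Set.mem_ofPred_eq] at h1 ⊢
        rw [← h1, ← this]; congr 1; abel
      neg_mem' := fun {g} h1 => by
        have := T.cl (v i) (g + v i) (v i) h1 rfl
        simp only [Set.mem_ofPred_eq]
        rw [← this]; congr 1; abel }
  have hL : ∀ x i, x - v i ∈ L i ↔ e (c' x) = i := by
    intro x i
    show c' (x - v i + v i) = c' (v i) ↔ _
    rw [sub_add_cancel, hv, Equiv.eq_symm_apply]
  refine ⟨m + 1, L, v, by omega, ⟨fun i => ?_, fun x => ?_⟩, ?_⟩
  · have : φ.ker ≤ L i := fun g hg => by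
      show c (φ (g + v i)) = c (φ (v i))
      rw [map_add, (AddMonoidHom.mem_ker).1 hg, zero_add]
    have : Finite φ.range := inferInstance
    exact AddSubgroup.finiteIndex_of_le ‹φ.ker ≤ L i›
  · simp [hL]
  · rintro ⟨k, blk, hk, hs, ⟨i, j, hij, hb⟩, hM⟩
    obtain ⟨M, w, -, hM⟩ := hM (blk i)
    simp only [hL, exists_eq_right'] at hM
    rcases T.prim {x | x - w ∈ M} (fun x hx y hy z hz => by
        have := M.add_mem (M.sub_mem hx hy) hz
        simp only [Set.mem_ofPred_eq]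
        convert this using 1; abel) (fun x y e1 hx => by
        simp only [Set.mem_ofPred_eq, ← hM] at hx ⊢
        rw [← e1]; exact hx) with h3 | h3
    · have := h3 (v i) ((hM _).1 (by simp [hv])) (v j) ((hM _).1 (by simp [hv, hb]))
      rw [hv, hv] at this
      exact hij (e.symm.injective this)
    · have : Nontrivial (Fin k) := Fin.nontrivial_iff_two_le.2 hk
      obtain ⟨b, hb'⟩ := exists_ne (blk i)
      obtain ⟨l, rfl⟩ := hs b
      have := (hM _).2 (h3 (v l))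
      simp [hv] at this
      exact hb' this

section step
variable {G ι : Type} [AddCommGroup G] (c : G → ι) (a a' b b' : G)

open Classical in
noncomputable def nxt (p : G × ZMod 2) : ι ⊕ Bool :=
  if p.1 = a then (if p.2 = 0 then .inl (c a) else .inr true)
  else if p.1 = a' then (if p.2 = 0 then .inl (c b) else .inr true)
  else if p.1 = b then (if p.2 = 0 then .inr false else .inl (c a))
  else if p.1 = b' then (if p.2 = 0 then .inr false else .inl (c b))
  else .inl (c p.1)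

lemma z2 : ∀ t : ZMod 2, t = 0 ∨ t = 1 := by decide

variable {c a a' b b'}

lemma Pair.ne (P : Pair c a a' b b') : a ≠ b ∧ a ≠ b' ∧ a' ≠ b ∧ a' ≠ b' := by
  have h1 := P.ha a'
  have h2 := P.hb b'
  have h3 := P.nab
  grind

lemma Pair.fA (P : Pair c a a' b b') (p : G × ZMod 2) :
    nxt c a a' b b' p = .inl (c a) ↔ p = (a, 0) ∨ p = (b, 1) := by
  obtain ⟨x, t⟩ := p
  have := P.ne; have := P.na; have := P.nb; have := P.nab; have := P.ha x
  have : (0 : ZMod 2) ≠ 1 := by decide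
  rcases z2 t with rfl | rfl <;> unfold nxt <;> grind

lemma Pair.fB (P : Pair c a a' b b') (p : G × ZMod 2) :
    nxt c a a' b b' p = .inl (c b) ↔ p = (a', 0) ∨ p = (b', 1) := by
  obtain ⟨x, t⟩ := p
  have := P.ne; have := P.na; have := P.nb; have := P.nab; have := P.hb x
  have : (0 : ZMod 2) ≠ 1 := by decide
  rcases z2 t with rfl | rfl <;> unfold nxt <;> grind

lemma Pair.fX (P : Pair c a a' b b') (p : G × ZMod 2) :
    nxt c a a' b b' p = .inr true ↔ p = (a, 1) ∨ p = (a', 1) := by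
  obtain ⟨x, t⟩ := p
  have := P.ne; have := P.na; have := P.nb
  have : (0 : ZMod 2) ≠ 1 := by decide
  rcases z2 t with rfl | rfl <;> unfold nxt <;> grind

lemma Pair.fY (P : Pair c a a' b b') (p : G × ZMod 2) :
    nxt c a a' b b' p = .inr false ↔ p = (b, 0) ∨ p = (b', 0) := by
  obtain ⟨x, t⟩ := p
  have := P.ne; have := P.na; have := P.nb
  have : (0 : ZMod 2) ≠ 1 := by decide
  rcases z2 t with rfl | rfl <;> unfold nxt <;> grind

lemma Pair.fO (P : Pair c a a' b b') (x : G) (t : ZMod 2) (h1 : c x ≠ c a) (h2 : c x ≠ c b) :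
    nxt c a a' b b' (x, t) = .inl (c x) := by
  have := P.ha x; have := P.hb x
  unfold nxt; grind

lemma Pair.fO' (P : Pair c a a' b b') (p : G × ZMod 2) (k : ι) (h1 : k ≠ c a) (h2 : k ≠ c b)
    (h : nxt c a a' b b' p = .inl k) : c p.1 = k := by
  unfold nxt at h; grind

lemma Pair.two' (P : Pair c a a' b b') (p : G × ZMod 2) : p + p = 0 := by
  ext
  · exact P.two _
  · exact CharTwo.add_self_eq_zero _

lemma cl2 {H : Type} [AddCommGroup H] (h2 : ∀ x : H, x + x = 0) (p q x y z : H)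
    (hx : x = p ∨ x = q) (hy : y = p ∨ y = q) (hz : z = p ∨ z = q) :
    x - y + z = p ∨ x - y + z = q := by
  have n1 : ∀ u w : H, u - w + u = w := fun u w => by
    have := h2 u; have := h2 w
    calc u - w + u = (u + u) - (w + w) + w := by abel
      _ = w := by rw [h2, h2]; simp
  rcases hx with rfl | rfl <;> rcases hy with rfl | rfl <;> rcases hz with rfl | rfl <;>
    simp [n1]

lemma Pair.step (P : Pair c a a' b b') :
    Pair (nxt c a a' b b') (a, 0) (b, 1) (a, 1) (a', 1) where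
  two := P.two'
  ha p := by rw [(P.fA (a, 0)).2 (Or.inl rfl), P.fA]
  hb p := by rw [(P.fX (a, 1)).2 (Or.inl rfl), P.fX]
  na := fun e => absurd (congrArg Prod.snd e) (by simp)
  nb := fun e => P.na (congrArg Prod.fst e)
  nab := by rw [(P.fA (a, 0)).2 (Or.inl rfl), (P.fX (a, 1)).2 (Or.inl rfl)]; simp
  dir := fun e => absurd (congrArg Prod.snd e) (by simp)

lemma Til.step (T : Til c) (P : Pair c a a' b b') : Til (nxt c a a' b b') where
  surj := by
    rintro (k | _ | _)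
    · by_cases h1 : k = c a
      · exact ⟨(a, 0), h1 ▸ (P.fA _).2 (Or.inl rfl)⟩
      by_cases h2 : k = c b
      · exact ⟨(a', 0), h2 ▸ (P.fB _).2 (Or.inl rfl)⟩
      obtain ⟨x, rfl⟩ := T.surj k
      exact ⟨(x, 0), P.fO x 0 h1 h2⟩
    · exact ⟨(b, 0), (P.fY _).2 (Or.inl rfl)⟩
    · exact ⟨(a, 1), (P.fX _).2 (Or.inl rfl)⟩
  cl x y z h1 h2 := by
    rcases e : nxt c a a' b b' x with k | _ | _ <;> rw [e] at h1 h2
    · by_cases k1 : k = c a
      · subst k1; rw [P.fA] at *; exact cl2 P.two' _ _ _ _ _ e h1 h2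
      by_cases k2 : k = c b
      · subst k2; rw [P.fB] at *; exact cl2 P.two' _ _ _ _ _ e h1 h2
      have e1 := P.fO' x k k1 k2 e
      have e2 := P.fO' y k k1 k2 h1
      have e3 := P.fO' z k k1 k2 h2
      have e4 := (T.cl x.1 y.1 z.1 (e2.trans e1.symm) (e3.trans e1.symm)).trans e1
      have := P.fO (x.1 - y.1 + z.1) (x.2 - y.2 + z.2) (e4 ▸ k1) (e4 ▸ k2)
      rw [e4] at this
      exact this
    · rw [P.fY] at *; exact cl2 P.two' _ _ _ _ _ e h1 h2
    · rw [P.fX] at *; exact cl2 P.two' _ _ _ _ _ e h1 h2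
  prim U h1 h2 := by
    by_contra hc
    push Not at hc
    obtain ⟨⟨p, hp, q, hq, hpq⟩, r, hr⟩ := hc
    have sA : (a, 0) ∈ U ↔ (b, 1) ∈ U :=
      ⟨h2 _ _ (by rw [(P.fA _).2 (Or.inl rfl), (P.fA _).2 (Or.inr rfl)]),
        h2 _ _ (by rw [(P.fA _).2 (Or.inr rfl), (P.fA _).2 (Or.inl rfl)])⟩
    have sB : (a', 0) ∈ U ↔ (b', 1) ∈ U :=
      ⟨h2 _ _ (by rw [(P.fB _).2 (Or.inl rfl), (P.fB _).2 (Or.inr rfl)]),
        h2 _ _ (by rw [(P.fB _).2 (Or.inr rfl), (P.fB _).2 (Or.inl rfl)])⟩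
    have sX : (a, 1) ∈ U ↔ (a', 1) ∈ U :=
      ⟨h2 _ _ (by rw [(P.fX _).2 (Or.inl rfl), (P.fX _).2 (Or.inr rfl)]),
        h2 _ _ (by rw [(P.fX _).2 (Or.inr rfl), (P.fX _).2 (Or.inl rfl)])⟩
    have sY : (b, 0) ∈ U ↔ (b', 0) ∈ U :=
      ⟨h2 _ _ (by rw [(P.fY _).2 (Or.inl rfl), (P.fY _).2 (Or.inr rfl)]),
        h2 _ _ (by rw [(P.fY _).2 (Or.inr rfl), (P.fY _).2 (Or.inl rfl)])⟩
    have out : ∀ x t, c x ≠ c a → c x ≠ c b → (x, t) ∈ U → (x, 0) ∈ U ∧ (x, 1) ∈ U :=
      fun x t k1 k2 hx => ⟨h2 _ _ (by rw [P.fO _ _ k1 k2, P.fO _ _ k1 k2]) hx,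
        h2 _ _ (by rw [P.fO _ _ k1 k2, P.fO _ _ k1 k2]) hx⟩
    have m1 : c (a - a' + b) ≠ c a := by
      intro e
      obtain ⟨n1, n2, n3, n4⟩ := P.ne
      rcases (P.ha _).1 e with e | e
      · apply n3; have : a' = a - (a - a' + b) + b := by abel
        rw [this, e]; simp
      · apply n1
        calc a = (a - a' + b) + a' - (b + b) + b := by abel
          _ = b := by rw [e, P.two, P.two]; simp
    have m2 : c (a - a' + b) ≠ c b := by
      intro e
      rcases (P.hb _).1 e with e | e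
      · apply P.na; have : a = (a - a' + b) - b + a' := by abel
        rw [this, e]; simp
      · exact P.dir e
    have inv : ∃ x, (x, 0) ∈ U ∧ (x, 1) ∈ U := by
      have t1 : (a, 0) ∈ U → (a', 0) ∈ U → ∃ x, (x, 0) ∈ U ∧ (x, 1) ∈ U := fun u1 u2 =>
        ⟨_, out _ _ m1 m2 (h1 _ u1 _ u2 _ (sA.1 u1))⟩
      have t2 : (a, 1) ∈ U → (b, 0) ∈ U → ∃ x, (x, 0) ∈ U ∧ (x, 1) ∈ U := fun u1 u2 =>
        ⟨_, out _ _ m1 m2 (h1 _ u1 _ (sX.1 u1) _ u2)⟩
      have cls : ∀ s ∈ U, (∃ x, (x, 0) ∈ U ∧ (x, 1) ∈ U) ∨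
          (nxt c a a' b b' s = .inl (c a) ∧ (a, 0) ∈ U) ∨
          (nxt c a a' b b' s = .inl (c b) ∧ (a', 0) ∈ U) ∨
          (nxt c a a' b b' s = .inr true ∧ (a, 1) ∈ U) ∨
          (nxt c a a' b b' s = .inr false ∧ (b, 0) ∈ U) := by
        rintro ⟨x, t⟩ hs
        rw [P.fA, P.fB, P.fX, P.fY]
        by_cases k1 : c x = c a
        · rcases (P.ha x).1 k1 with rfl | rfl <;> rcases z2 t with rfl | rfl
          · exact Or.inr (Or.inl ⟨Or.inl rfl, hs⟩)
          · exact Or.inr (Or.inr (Or.inr (Or.inl ⟨Or.inl rfl, hs⟩)))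
          · exact Or.inr (Or.inr (Or.inl ⟨Or.inl rfl, hs⟩))
          · exact Or.inr (Or.inr (Or.inr (Or.inl ⟨Or.inr rfl, sX.2 hs⟩)))
        by_cases k2 : c x = c b
        · rcases (P.hb x).1 k2 with rfl | rfl <;> rcases z2 t with rfl | rfl
          · exact Or.inr (Or.inr (Or.inr (Or.inr ⟨Or.inl rfl, hs⟩)))
          · exact Or.inr (Or.inl ⟨Or.inr rfl, sA.2 hs⟩)
          · exact Or.inr (Or.inr (Or.inr (Or.inr ⟨Or.inr rfl, sY.2 hs⟩)))
          · exact Or.inr (Or.inr (Or.inl ⟨Or.inr rfl, sB.2 hs⟩))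
        exact Or.inl ⟨x, out x t k1 k2 hs⟩
      rcases cls p hp with u | ⟨e1, u⟩ | ⟨e1, u⟩ | ⟨e1, u⟩ | ⟨e1, u⟩
      · exact u
      all_goals
        rcases cls q hq with w | ⟨e2, w⟩ | ⟨e2, w⟩ | ⟨e2, w⟩ | ⟨e2, w⟩
        all_goals first
          | exact w
          | exact absurd (e1.trans e2.symm) hpq
          | exact t1 u w
          | exact t1 w u
          | exact t2 u w
          | exact t2 w u
          | exact ⟨_, u, w⟩
          | exact ⟨_, w, u⟩
          | exact ⟨_, w, sA.1 u⟩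
          | exact ⟨_, u, sA.1 w⟩
          | exact ⟨_, u, sX.1 w⟩
          | exact ⟨_, w, sX.1 u⟩
          | exact ⟨_, sY.1 w, sB.1 u⟩
          | exact ⟨_, sY.1 u, sB.1 w⟩
    obtain ⟨x0, i0, i1⟩ := inv
    have flip : ∀ y t s, (y, t) ∈ U → (y, s) ∈ U := by
      intro y t s hy
      have f1 := h1 _ hy _ i0 _ i1
      simp only [Prod.mk_sub_mk, Prod.mk_add_mk, sub_add_cancel, sub_zero] at f1
      rcases z2 t with rfl | rfl <;> rcases z2 s with rfl | rfl
      · exact hy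
      · simpa using f1
      · exact f1
      · exact hy
    rcases T.prim {y | (y, 0) ∈ U} (fun x hx y hy z hz => by
        simpa using h1 _ hx _ hy _ hz) (fun x y e hx => by
        simp only [Set.mem_ofPred_eq] at hx ⊢
        by_cases k1 : c x = c a
        · have u : (a, 1) ∈ U := by
            rcases (P.ha x).1 k1 with rfl | rfl
            · exact flip _ _ _ hx
            · exact sX.2 (flip _ _ _ hx)
          rcases (P.ha y).1 (e ▸ k1) with rfl | rfl
          · exact flip _ _ _ u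
          · exact flip _ _ _ (sX.1 u)
        by_cases k2 : c x = c b
        · have u : (b, 0) ∈ U := by
            rcases (P.hb x).1 k2 with rfl | rfl
            · exact hx
            · exact sY.2 hx
          rcases (P.hb y).1 (e ▸ k2) with rfl | rfl
          · exact u
          · exact sY.1 u
        exact h2 _ _ (by rw [P.fO _ _ k1 k2, P.fO _ _ (e ▸ k1) (e ▸ k2), e]) hx) with h3 | h3
    · have hp' : (p.1, 0) ∈ U := flip _ p.2 _ hp
      have hq' : (q.1, 0) ∈ U := flip _ q.2 _ hq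
      have nab : ¬ (a, 0) ∈ U := fun u => P.nab (h3 a u b (flip _ _ _ (sA.1 u)))
      by_cases k1 : c p.1 = c a
      · rcases (P.ha _).1 k1 with e | e <;> rw [e] at hp'
        · exact nab hp'
        · exact nab (flip _ _ _ (sX.2 (flip _ _ _ hp')))
      by_cases k2 : c p.1 = c b
      · rcases (P.hb _).1 k2 with e | e <;> rw [e] at hp'
        · exact nab (sA.2 (flip _ _ _ hp'))
        · exact nab (sA.2 (flip _ _ _ (sY.2 hp')))
      have e := h3 _ hp' _ hq'
      apply hpq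
      rw [show p = (p.1, p.2) from rfl, show q = (q.1, q.2) from rfl, P.fO _ _ k1 k2,
        P.fO _ _ (e ▸ k1) (e ▸ k2), e]
    · exact hr (flip r.1 0 r.2 (h3 r.1))

end step

def Good (n : ℕ) : Prop := ∃ (G ι : Type) (_ : AddCommGroup G) (_ : Finite G) (_ : Fintype ι)
  (c : G → ι) (a a' b b' : G), Fintype.card ι = n ∧ Til c ∧ Pair c a a' b b'

lemma Good.step {n : ℕ} (h : Good n) : Good (n + 2) := by
  obtain ⟨G, ι, _, _, _, c, a, a', b, b', h1, h2, h3⟩ := h
  exact ⟨G × ZMod 2, ι ⊕ Bool, inferInstance, inferInstance, inferInstance, _, _, _, _, _,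
    by simp [h1], h2.step h3, h3.step⟩

lemma til_of {G : Type} {n : ℕ} [AddCommGroup G] (c : G → Fin n) (h1 : Function.Surjective c)
    (h2 : ∀ x y z, c y = c x → c z = c x → c (x - y + z) = c x)
    (h3 : ∀ I : Fin n → Bool, (∀ x, I (c x) = true → ∀ y, I (c y) = true → ∀ z, I (c z) = true →
      I (c (x - y + z)) = true) → (∀ i, I i = true → ∀ j, I j = true → i = j) ∨ ∀ i, I i = true) :
    Til c := by
  classical
  refine ⟨h1, h2, fun U u1 u2 => ?_⟩
  have e : ∀ x, decide (∃ y ∈ U, c y = c x) = true ↔ x ∈ U := fun x => by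
    simp only [decide_eq_true_eq]
    exact ⟨fun ⟨y, hy, e⟩ => u2 y x e hy, fun hx => ⟨x, hx, rfl⟩⟩
  rcases h3 (fun i => decide (∃ y ∈ U, c y = i)) (fun x hx y hy z hz =>
    (e _).2 (u1 x ((e _).1 hx) y ((e _).1 hy) z ((e _).1 hz))) with h | h
  · exact Or.inl fun x hx y hy => h _ ((e _).2 hx) _ ((e _).2 hy)
  · exact Or.inr fun x => (e x).1 (h _)

abbrev B := Fin 2

def c4 (p : B × B × B) : Fin 4 := [0, 1, 2, 1, 3, 3, 2, 0].getD (4 * p.1.1 + 2 * p.2.1.1 + p.2.2.1) 0

def c7 (p : B × B × B × B) : Fin 7 :=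
  [4, 1, 5, 2, 2, 3, 5, 0, 6, 3, 2, 1, 0, 2, 6, 4].getD
    (8 * p.1.1 + 4 * p.2.1.1 + 2 * p.2.2.1.1 + p.2.2.2.1) 0

lemma good4 : Good 4 :=
  ⟨B × B × B, Fin 4, inferInstance, inferInstance, inferInstance, c4, (0, 0, 0), (1, 1, 1),
    (0, 0, 1), (0, 1, 1), by simp, til_of c4 (by decide +kernel) (by decide +kernel)
      (by decide +kernel), by constructor <;> decide +kernel⟩

set_option synthInstance.maxSize 2000 in
lemma good7 : Good 7 :=
  ⟨B × B × B × B, Fin 7, inferInstance, inferInstance, inferInstance, c7, (0, 1, 1, 1),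
    (1, 1, 0, 0), (0, 0, 0, 1), (1, 0, 1, 1), by simp, til_of c7 (by decide +kernel)
      (by decide +kernel) (by decide +kernel), by constructor <;> decide +kernel⟩

lemma good (k : ℕ) : Good (4 + 2 * k) ∧ Good (7 + 2 * k) := by
  induction k with
  | zero => exact ⟨good4, good7⟩
  | succ k ih => exact ⟨ih.1.step, ih.2.step⟩

theorem result (n : ℕ) (hn : 1 ≤ n) : ∃ (d : ℕ) (L : Fin n → AddSubgroup (Fin d → ℤ))
    (v : Fin n → Fin d → ℤ), 1 ≤ d ∧ IsTiling L v ∧ ¬ Splits L v := by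
  have hg : Good n → ∃ (d : ℕ) (L : Fin n → AddSubgroup (Fin d → ℤ))
      (v : Fin n → Fin d → ℤ), 1 ≤ d ∧ IsTiling L v ∧ ¬ Splits L v := by
    rintro ⟨G, ι, _, _, _, c, a, a', b, b', h1, h2, -⟩
    exact final h2 n h1
  by_cases h1 : n = 1
  · exact final (til_of (G := Fin 1) id (by decide) (by decide) (by decide)) n (by simp [h1])
  by_cases h2 : n = 2
  · exact final (til_of (G := Fin 2) id (by decide) (by decide) (by decide)) n (by simp [h2])
  by_cases h3 : n = 3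
  · exact final (til_of (G := Fin 3) id (by decide) (by decide) (by decide +kernel)) n
      (by simp [h3])
  by_cases h5 : n = 5
  · exact final (til_of (G := Fin 5) id (by decide) (by decide +kernel) (by decide +kernel)) n
      (by simp [h5])
  apply hg
  rcases Nat.even_or_odd' n with ⟨k, rfl | rfl⟩
  · convert (good (k - 2)).1 using 1; omega
  · convert (good (k - 3)).2 using 1; omega

end Pool.Agent.Results.MP_f7d7fe_co.AllN
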